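import Pool.Agent.Helper76.CV.Goals

/-!
# Project CV (MP_eec6f5_gt), packet DEZ: the derivative of the profile of a tunnel
-/

open scoped ContDiff
open Filter Topology

namespace Pool.Agent.Helper16.CV.DEZ

open Pool.Agent.Helper76.CV

theorem t (hWF : WF1) : DEZ := by
  intro r P a x h ha
  obtain ⟨hW, -⟩ := hWF
  have hWd : ∀ w, HasDerivAt W (deriv W w) w := fun w =>
    ((hW.differentiable (by simp)) w).hasDerivAt
  have had : HasDerivAt a (deriv a x.1) x.1 := ((ha.differentiable (by simp)) x.1).hasDerivAt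
  have h1 : HasFDerivAt (fun x' : ℝ × E (r + 3) => a x'.1)
      ((ContinuousLinearMap.fst ℝ ℝ (E (r + 3))).smulRight (deriv a x.1)) x := by
    have h2 := had.hasFDerivAt.comp x (hasFDerivAt_fst (𝕜 := ℝ) (E := ℝ) (F := E (r + 3)) (p := x))
    refine h2.congr_fderiv ?_
    ext v <;> simp
  have h2 : HasFDerivAt (fun x' : ℝ × E (r + 3) => P x'.2)
      (P.comp (ContinuousLinearMap.snd ℝ ℝ (E (r + 3)))) x :=
    P.hasFDerivAt.comp x hasFDerivAt_snd
  have h3 : HasFDerivAt (fun x' : ℝ × E (r + 3) => ‖P x'.2 - a x'.1‖ ^ 2)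
      (2 • (innerSL ℝ (P x.2 - a x.1)).comp (P.comp (ContinuousLinearMap.snd ℝ ℝ (E (r + 3))) -
        (ContinuousLinearMap.fst ℝ ℝ (E (r + 3))).smulRight (deriv a x.1))) x :=
    (h2.sub h1).norm_sq
  have hpos : 0 < ‖P x.2 - a x.1‖ ^ 2 + 1 / 10 ^ 6 := by positivity
  have h4 := (h3.add_const (1 / 10 ^ 6 : ℝ)).sqrt hpos.ne'
  have h5 := h4.const_sub (4 / 25 : ℝ)
  have h6 := ((hWd _).comp_hasFDerivAt x h5).const_mul (13 : ℝ)
  have h7 : (fun x' : ℝ × E (r + 3) => Z (‖P x'.2 - a x'.1‖ ^ 2)) =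
      fun x' => 13 * (W ∘ fun x' : ℝ × E (r + 3) =>
        4 / 25 - √(‖P x'.2 - a x'.1‖ ^ 2 + 1 / 10 ^ 6)) x' := rfl
  rw [h7]
  refine (congrArg (fun L : (ℝ × E (r + 3)) →L[ℝ] ℝ => L h) h6.fderiv).trans ?_
  simp only [ContinuousLinearMap.smul_apply, ContinuousLinearMap.neg_apply,
    ContinuousLinearMap.coe_comp', Function.comp_apply, ContinuousLinearMap.sub_apply,
    ContinuousLinearMap.smulRight_apply, ContinuousLinearMap.coe_fst', ContinuousLinearMap.coe_snd',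
    innerSL_apply_apply, smul_eq_mul, nsmul_eq_mul, Nat.cast_ofNat]
  have hs : √(‖P x.2 - a x.1‖ ^ 2 + 1 / 10 ^ 6) ≠ 0 := (Real.sqrt_pos.2 hpos).ne'
  field_simp

end Pool.Agent.Helper16.CV.DEZ
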